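import Mathlib

/-!
# Circle packings: a locally maximal packing that is not globally maximal

`G` is the planar triangulation on six vertices `0,…,5` obtained by joining the edge `{0,1}` to the
path `5-2-3-4`, with the cyclic orders `rot`.  The packing `P` (with `0,1,5` of radius one) is
locally maximal for the radius ratio, and the packing `Q` (with `0,2,3` of radius one) has a larger
ratio.
-/

namespace Pool.Agent.Results.MP_e55252_co.LocalNotGlobal

open Topology

/-- Configurations `(x_i, y_i, r_i)` of `n` circles. -/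
abbrev Conf (n : ℕ) : Type := Fin n → ℝ × ℝ × ℝ

variable {n : ℕ}

/-- First coordinate of the centre. -/
def cx (c : Conf n) (i : Fin n) : ℝ := (c i).1
/-- Second coordinate of the centre. -/
def cy (c : Conf n) (i : Fin n) : ℝ := (c i).2.1
/-- The radius. -/
def rad (c : Conf n) (i : Fin n) : ℝ := (c i).2.2

/-- Cross product of the vectors from the centre of `v` to the centres of `a` and `b`. -/
def cr (c : Conf n) (v a b : Fin n) : ℝ :=
  (cx c a - cx c v) * (cy c b - cy c v) - (cy c a - cy c v) * (cx c b - cx c v)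

/-- The directions from `v` to `a`, `b`, `d` are in counterclockwise cyclic order: at least two of
the three consecutive cross products are positive. -/
def Ccw (c : Conf n) (v a b d : Fin n) : Prop :=
  (0 < cr c v a b ∧ 0 < cr c v b d) ∨ (0 < cr c v b d ∧ 0 < cr c v d a) ∨
    (0 < cr c v d a ∧ 0 < cr c v a b)

/-- The members of the list occur around `v` in counterclockwise cyclic order. -/
def CcwList (c : Conf n) (v : Fin n) : List (Fin n) → Prop
  | [] => True
  | a :: L => L.Pairwise (fun b d => Ccw c v a b d) ∧ CcwList c v L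

/-- The packings `P(G)` of the plane graph in which the neighbours of `v` in counterclockwise
cyclic order are listed by `rot v`. -/
def Packings (rot : Fin n → List (Fin n)) : Set (Conf n) :=
  {c | (∀ v, 0 < rad c v) ∧
    (∀ v, ∀ u ∈ rot v, (rad c v + rad c u) ^ 2 = (cx c v - cx c u) ^ 2 + (cy c v - cy c u) ^ 2) ∧
    (∀ v, CcwList c v (rot v))}

/-- Distinct disks have disjoint interiors. -/
def NonOverlapping (c : Conf n) : Prop :=
  ∀ u v, u ≠ v → (rad c u + rad c v) ^ 2 ≤ (cx c u - cx c v) ^ 2 + (cy c u - cy c v) ^ 2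

/-- The radius ratio `min r / max r`. -/
noncomputable def ratio (c : Conf n) : ℝ := (⨅ v, rad c v) / (⨆ v, rad c v)

/-- `p` is a locally maximal packing. -/
def LocallyMaximal (rot : Fin n → List (Fin n)) (p : Conf n) : Prop :=
  p ∈ Packings rot ∧ ∃ U ∈ 𝓝 p, ∀ q ∈ U, q ∈ Packings rot → ratio q ≤ ratio p

/-- The cyclic orders of the example. -/
def rot6 : Fin 6 → List (Fin 6)
  | 0 => [1, 4, 3, 2, 5]
  | 1 => [0, 5, 2, 3, 4]
  | 2 => [0, 3, 1, 5]
  | 3 => [0, 4, 1, 2]
  | 4 => [0, 1, 3]
  | 5 => [0, 2, 1]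

/-! ### Descartes' relation -/

theorem descartes {x1 y1 a x2 y2 b x3 y3 c x4 y4 d : ℝ}
    (h12 : (a + b) ^ 2 = (x1 - x2) ^ 2 + (y1 - y2) ^ 2)
    (h13 : (a + c) ^ 2 = (x1 - x3) ^ 2 + (y1 - y3) ^ 2)
    (h14 : (a + d) ^ 2 = (x1 - x4) ^ 2 + (y1 - y4) ^ 2)
    (h23 : (b + c) ^ 2 = (x2 - x3) ^ 2 + (y2 - y3) ^ 2)
    (h24 : (b + d) ^ 2 = (x2 - x4) ^ 2 + (y2 - y4) ^ 2)
    (h34 : (c + d) ^ 2 = (x3 - x4) ^ 2 + (y3 - y4) ^ 2) :
    (b * c * d + a * c * d + a * b * d + a * b * c) ^ 2 =
      2 * ((b * c * d) ^ 2 + (a * c * d) ^ 2 + (a * b * d) ^ 2 + (a * b * c) ^ 2) := by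
  have e12 : a ^ 2 + a * b + a * c - b * c = (x1 - x2) * (x1 - x3) + (y1 - y2) * (y1 - y3) := by
    linear_combination (h12 + h13 - h23) / 2
  have e13 : a ^ 2 + a * b + a * d - b * d = (x1 - x2) * (x1 - x4) + (y1 - y2) * (y1 - y4) := by
    linear_combination (h12 + h14 - h24) / 2
  have e23 : a ^ 2 + a * c + a * d - c * d = (x1 - x3) * (x1 - x4) + (y1 - y3) * (y1 - y4) := by
    linear_combination (h13 + h14 - h34) / 2
  have key : (a + b) ^ 2 * (a + c) ^ 2 * (a + d) ^ 2
      + 2 * (a ^ 2 + a * b + a * c - b * c) * (a ^ 2 + a * b + a * d - b * d)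
        * (a ^ 2 + a * c + a * d - c * d)
      - (a + b) ^ 2 * (a ^ 2 + a * c + a * d - c * d) ^ 2
      - (a + c) ^ 2 * (a ^ 2 + a * b + a * d - b * d) ^ 2
      - (a + d) ^ 2 * (a ^ 2 + a * b + a * c - b * c) ^ 2 = 0 := by
    rw [h12, h13, h14, e12, e13, e23]; ring
  linear_combination key / 4

theorem step {a b c d M t s : ℝ} (ha : 0 < a) (hb : 0 < b) (hc : 0 < c) (hd : 0 < d)
    (hD : (b * c * d + a * c * d + a * b * d + a * b * c) ^ 2 =
      2 * ((b * c * d) ^ 2 + (a * c * d) ^ 2 + (a * b * d) ^ 2 + (a * b * c) ^ 2))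
    (hlt : d * (a * b + b * c + a * c) < a * b * c)
    (hM : 0 < M) (haM : a ≤ M) (hbM : b ≤ M) (ht : 0 ≤ t) (hs : 0 ≤ s) (hst : s ^ 2 = 1 + 2 * t)
    (hcM : c * t ≤ M) : d * (2 + t + 2 * s) ≤ M := by
  have e : (1 / a + 1 / b + 1 / c + 1 / d) ^ 2
      = 2 * ((1 / a) ^ 2 + (1 / b) ^ 2 + (1 / c) ^ 2 + (1 / d) ^ 2) := by
    have h1 : (1 / a + 1 / b + 1 / c + 1 / d) ^ 2
        = (b * c * d + a * c * d + a * b * d + a * b * c) ^ 2 / (a * b * c * d) ^ 2 := by
      field_simp
    have h2 : 2 * ((1 / a) ^ 2 + (1 / b) ^ 2 + (1 / c) ^ 2 + (1 / d) ^ 2)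
        = 2 * ((b * c * d) ^ 2 + (a * c * d) ^ 2 + (a * b * d) ^ 2 + (a * b * c) ^ 2)
          / (a * b * c * d) ^ 2 := by
      field_simp
    rw [h1, h2, hD]
  have hX : 0 < 1 / d - (1 / a + 1 / b + 1 / c) := by
    have : 1 / d - (1 / a + 1 / b + 1 / c)
        = (a * b * c - d * (a * b + b * c + a * c)) / (a * b * c * d) := by
      field_simp
      ring
    rw [this]
    apply div_pos (by linarith) (by positivity)
  have hA : 1 / M ≤ 1 / a := one_div_le_one_div_of_le ha haM
  have hB : 1 / M ≤ 1 / b := one_div_le_one_div_of_le hb hbM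
  have hC : t * (1 / M) ≤ 1 / c := by
    rw [mul_one_div, div_le_div_iff₀ hM hc]
    linarith
  set A := 1 / a
  set B := 1 / b
  set C := 1 / c
  set D := 1 / d with hDdef
  set m := 1 / M with hm
  have hm0 : 0 < m := by positivity
  have hX2 : (D - (A + B + C)) ^ 2 = 4 * (A * B + B * C + C * A) := by
    linear_combination -e
  have h1 : m * m ≤ A * B := mul_le_mul hA hB hm0.le (by positivity)
  have h2 : m * (t * m) ≤ B * C := mul_le_mul hB hC (by positivity) (by positivity)
  have h3 : (t * m) * m ≤ C * A := mul_le_mul hC hA hm0.le (by positivity)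
  have h4 : (2 * s * m) ^ 2 ≤ (D - (A + B + C)) ^ 2 := by
    have : (2 * s * m) ^ 2 = 4 * (1 + 2 * t) * (m * m) := by rw [← hst]; ring
    rw [this, hX2]
    nlinarith
  have h5 : 2 * s * m ≤ D - (A + B + C) := by
    exact (pow_le_pow_iff_left₀ (by positivity) hX.le two_ne_zero).mp h4
  have h6 : (2 + t + 2 * s) * m ≤ D := by nlinarith
  rw [hm, hDdef, mul_one_div, div_le_div_iff₀ hM hd] at h6
  linarith

/-! ### The two packings -/

/-- The square root of three. -/
noncomputable def s3 : ℝ := Real.sqrt 3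

theorem s3_sq : s3 ^ 2 = 3 := Real.sq_sqrt (by norm_num)

theorem s3_lo : (1.732 : ℝ) < s3 := by
  rw [s3, Real.lt_sqrt (by norm_num)]; norm_num

theorem s3_hi : s3 < (1.7321 : ℝ) := by
  rw [s3, Real.sqrt_lt' (by norm_num)]; norm_num

/-- The locally maximal packing. -/
noncomputable def P : Conf 6 :=
  ![(-1, 0, 1), (1, 0, 1), (0, s3 / 3, (2 * s3 - 3) / 3),
    (0, (24 - 7 * s3) / 33, (9 - 4 * s3) / 33), (0, (96 - 17 * s3) / 253, (19 - 6 * s3) / 253),
    (0, s3, 1)]

/-- The packing with the larger ratio. -/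
noncomputable def Q : Conf 6 :=
  ![(0, s3, 1), (0, s3 / 3, (2 * s3 - 3) / 3), (-1, 0, 1), (1, 0, 1),
    ((9 - 4 * s3) / 11, (20 * s3 - 12) / 33, (9 - 4 * s3) / 33),
    (-(9 - 4 * s3) / 11, (20 * s3 - 12) / 33, (9 - 4 * s3) / 33)]

theorem P_mem : P ∈ Packings rot6 := by
  have h := s3_sq
  have h1 := s3_lo
  have h2 := s3_hi
  refine ⟨?_, ?_, ?_⟩
  · intro v
    fin_cases v <;> simp [rad, P] <;> linarith
  · intro v u hu
    fin_cases v <;> simp only [rot6] at hu <;>
      simp only [List.mem_cons, List.not_mem_nil, or_false] at hu <;>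
      rcases hu with rfl | rfl | rfl | rfl | rfl <;>
      simp [rad, cx, cy, P] <;> nlinarith
  · intro v
    fin_cases v <;> simp [rot6, CcwList, Ccw, cr, cx, cy, P, List.pairwise_cons] <;>
      (repeat' apply And.intro) <;>
      first
      | linarith
      | (left; linarith)
      | (left; constructor <;> linarith)
      | (right; left; constructor <;> linarith)
      | (right; right; constructor <;> linarith)

theorem Q_mem : Q ∈ Packings rot6 := by
  have h := s3_sq
  have h1 := s3_lo
  have h2 := s3_hi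
  refine ⟨?_, ?_, ?_⟩
  · intro v
    fin_cases v <;> simp [rad, Q] <;> linarith
  · intro v u hu
    fin_cases v <;> simp only [rot6] at hu <;>
      simp only [List.mem_cons, List.not_mem_nil, or_false] at hu <;>
      rcases hu with rfl | rfl | rfl | rfl | rfl <;>
      simp [rad, cx, cy, Q] <;> nlinarith
  · intro v
    fin_cases v <;> simp [rot6, CcwList, Ccw, cr, cx, cy, Q, List.pairwise_cons] <;>
      (repeat' apply And.intro) <;>
      first
      | linarith
      | (left; linarith)
      | (left; constructor <;> linarith)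
      | (right; left; constructor <;> linarith)
      | (right; right; constructor <;> linarith)
      | (right; left; linarith)
      | (right; right; linarith)
      | (right; linarith)

theorem P_nonOverlapping : NonOverlapping P := by
  have h := s3_sq
  have h1 := s3_lo
  have h2 := s3_hi
  intro u v huv
  fin_cases u <;> fin_cases v <;>
    first
    | exact absurd rfl huv
    | (simp [rad, cx, cy, P] <;> nlinarith)

theorem Q_nonOverlapping : NonOverlapping Q := by
  have h := s3_sq
  have h1 := s3_lo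
  have h2 := s3_hi
  intro u v huv
  fin_cases u <;> fin_cases v <;>
    first
    | exact absurd rfl huv
    | (simp [rad, cx, cy, Q] <;> nlinarith)

/-! ### Radius ratios -/

theorem inf_le (c : Conf 6) (v : Fin 6) : (⨅ v, rad c v) ≤ rad c v :=
  ciInf_le (Set.finite_range _).bddBelow v

theorem le_sup (c : Conf 6) (v : Fin 6) : rad c v ≤ ⨆ v, rad c v :=
  le_ciSup (Set.finite_range _).bddAbove v

theorem ratio_P : ratio P = 1 / (19 + 6 * s3) := by
  have h := s3_sq
  have h1 := s3_lo
  have h2 := s3_hi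
  have hs : (⨆ v, rad P v) = 1 := by
    apply le_antisymm
    · apply ciSup_le
      intro v
      fin_cases v <;> simp [rad, P] <;> linarith
    · have := le_sup P 0
      simpa [rad, P] using this
  have hi : (⨅ v, rad P v) = (19 - 6 * s3) / 253 := by
    apply le_antisymm
    · have := inf_le P 4
      simpa [rad, P] using this
    · apply le_ciInf
      intro v
      fin_cases v <;> simp [rad, P] <;> linarith
  rw [ratio, hs, hi, div_one, div_eq_div_iff (by norm_num) (by linarith)]
  linarith

theorem ratio_Q : ratio Q = 1 / (9 + 4 * s3) := by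
  have h := s3_sq
  have h1 := s3_lo
  have h2 := s3_hi
  have hs : (⨆ v, rad Q v) = 1 := by
    apply le_antisymm
    · apply ciSup_le
      intro v
      fin_cases v <;> simp [rad, Q] <;> linarith
    · have := le_sup Q 0
      simpa [rad, Q] using this
  have hi : (⨅ v, rad Q v) = (9 - 4 * s3) / 33 := by
    apply le_antisymm
    · have := inf_le Q 4
      simpa [rad, Q] using this
    · apply le_ciInf
      intro v
      fin_cases v <;> simp [rad, Q] <;> linarith
  rw [ratio, hs, hi, div_one, div_eq_div_iff (by norm_num) (by linarith)]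
  linarith

theorem P_localMax : LocallyMaximal rot6 P := by
  have h := s3_sq
  have h1 := s3_lo
  have h2 := s3_hi
  refine ⟨P_mem, {c | rad c 2 * (rad c 0 * rad c 1 + rad c 1 * rad c 5 + rad c 0 * rad c 5)
      < rad c 0 * rad c 1 * rad c 5} ∩
    ({c | rad c 3 * (rad c 0 * rad c 1 + rad c 1 * rad c 2 + rad c 0 * rad c 2)
      < rad c 0 * rad c 1 * rad c 2} ∩
     {c | rad c 4 * (rad c 0 * rad c 1 + rad c 1 * rad c 3 + rad c 0 * rad c 3)
      < rad c 0 * rad c 1 * rad c 3}), ?_, ?_⟩
  · apply IsOpen.mem_nhds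
    · have hc : ∀ i, Continuous (fun c : Conf 6 => rad c i) := fun i => by
        unfold rad
        fun_prop
      refine (isOpen_lt ?_ ?_).inter ((isOpen_lt ?_ ?_).inter (isOpen_lt ?_ ?_)) <;> fun_prop
    · refine ⟨?_, ?_, ?_⟩
      · simp [rad, P]; nlinarith
      · simp [rad, P]; nlinarith
      · simp [rad, P]; nlinarith
  · rintro q ⟨u1, u2, u3⟩ ⟨hpos, hq, -⟩
    simp only [Set.mem_setOf_eq] at u1 u2 u3
    set M := ⨆ v, rad q v with hMdef
    have m0 : rad q 0 ≤ M := le_sup q 0
    have m1 : rad q 1 ≤ M := le_sup q 1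
    have m5 : rad q 5 ≤ M := le_sup q 5
    have hM : 0 < M := lt_of_lt_of_le (hpos 0) m0
    have h01 := hq 0 1 (by simp [rot6])
    have h02 := hq 0 2 (by simp [rot6])
    have h03 := hq 0 3 (by simp [rot6])
    have h04 := hq 0 4 (by simp [rot6])
    have h05 := hq 0 5 (by simp [rot6])
    have h12 := hq 1 2 (by simp [rot6])
    have h13 := hq 1 3 (by simp [rot6])
    have h14 := hq 1 4 (by simp [rot6])
    have h15 := hq 1 5 (by simp [rot6])
    have h23 := hq 2 3 (by simp [rot6])
    have h34 := hq 3 4 (by simp [rot6])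
    have h52 := hq 5 2 (by simp [rot6])
    have d1 := descartes h01 h05 h02 h15 h12 h52
    have d2 := descartes h01 h02 h03 h12 h13 h23
    have d3 := descartes h01 h03 h04 h13 h14 h34
    have s1 := step (t := 1) (s := s3) (hpos 0) (hpos 1) (hpos 5) (hpos 2) d1 u1 hM m0 m1
      (by norm_num) (by linarith) (by linear_combination h) (by linarith)
    have c1 : rad q 2 * (3 + 2 * s3) ≤ M := by
      calc rad q 2 * (3 + 2 * s3) = rad q 2 * (2 + 1 + 2 * s3) := by ring
        _ ≤ M := s1
    have s2 := step (t := 3 + 2 * s3) (s := 2 + s3) (hpos 0) (hpos 1) (hpos 2) (hpos 3) d2 u2 hM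
      m0 m1 (by linarith) (by linarith) (by linear_combination h) c1
    have c2 : rad q 3 * (9 + 4 * s3) ≤ M := by
      calc rad q 3 * (9 + 4 * s3) = rad q 3 * (2 + (3 + 2 * s3) + 2 * (2 + s3)) := by ring
        _ ≤ M := s2
    have s4 := step (t := 9 + 4 * s3) (s := 4 + s3) (hpos 0) (hpos 1) (hpos 3) (hpos 4) d3 u3 hM
      m0 m1 (by linarith) (by linarith) (by linear_combination h) c2
    have c3 : rad q 4 * (19 + 6 * s3) ≤ M := by
      calc rad q 4 * (19 + 6 * s3) = rad q 4 * (2 + (9 + 4 * s3) + 2 * (4 + s3)) := by ring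
        _ ≤ M := s4
    have hs : (0 : ℝ) < 19 + 6 * s3 := by linarith
    rw [ratio_P, ratio, ← hMdef, div_le_div_iff₀ hM hs, one_mul]
    exact le_trans (mul_le_mul_of_nonneg_right (inf_le q 4) hs.le) c3

/-! ### The result -/

/-- `rot` is the list of cyclic orders of a finite simple plane graph: adjacency is symmetric, there
are no loops or repeated neighbours, and the cyclic orders are those of the straight-line drawing
given by some packing with non-overlapping disks. -/
def PlaneGraph (rot : Fin n → List (Fin n)) : Prop :=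
  (∀ u v, u ∈ rot v ↔ v ∈ rot u) ∧ (∀ v, (rot v).Nodup ∧ v ∉ rot v) ∧
    ∃ c ∈ Packings rot, NonOverlapping c

theorem rot6_planeGraph : PlaneGraph rot6 := by
  refine ⟨by decide, by decide, Q, Q_mem, Q_nonOverlapping⟩

/-- **Q1 is disproved.**  For the plane triangulation `rot6` there are two packings `p`, `q`, both
with non-overlapping disks, such that `p` is locally maximal, `ratio p = 1 / (19 + 6 √3)` and
`ratio q = 1 / (9 + 4 √3) > ratio p`.  Hence local maximality does not imply global maximality. -/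
theorem result :
    (PlaneGraph rot6 ∧ ∃ p q : Conf 6, NonOverlapping p ∧ NonOverlapping q ∧
      LocallyMaximal rot6 p ∧ q ∈ Packings rot6 ∧ ratio p = 1 / (19 + 6 * Real.sqrt 3) ∧
      ratio q = 1 / (9 + 4 * Real.sqrt 3) ∧ ratio p < ratio q) ∧
    ¬ (∀ (n : ℕ) (rot : Fin n → List (Fin n)), PlaneGraph rot → ∀ p, LocallyMaximal rot p →
      ∀ q ∈ Packings rot, ratio q ≤ ratio p) := by
  have hlt : ratio P < ratio Q := by
    have h1 := s3_lo
    rw [ratio_P, ratio_Q]
    apply one_div_lt_one_div_of_lt (by linarith)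
    linarith
  refine ⟨⟨rot6_planeGraph, P, Q, P_nonOverlapping, Q_nonOverlapping, P_localMax, Q_mem,
    ratio_P, ratio_Q, hlt⟩, ?_⟩
  intro hall
  exact absurd (hall 6 rot6 rot6_planeGraph P P_localMax Q Q_mem) (not_le.mpr hlt)

end Pool.Agent.Results.MP_e55252_co.LocalNotGlobal
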